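import Pool.Agent.X177.AS.Main

set_option autoImplicit false

/-!
`MP_abecca_co`, Q1, negated form: there are infinitely many connected sporadic 3-astral
4-configurations.

For a large prime `p` take `m = 30p` and the symbol `m#(1, 6p; p, 1; 11p, 10p)`. The cosine identity
is `cos 6° cos 66° = cos 36° cos 60°`. An additional incidence would give one of the equations
`cos 36° cos ε = cos 6° cos uε`, `cos 36° cos 60° = cos ε cos uε` with `ε = π/m` and `u` an integer,
which are excluded by Galois conjugation (`ζ ↦ ζ^g` with `g ≡ 1` modulo 60).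
-/

namespace Pool.Agent.Results.MP_abecca_co.InfinitelyManySporadic

open Pool.Agent.X177.AS

/-- There are connected sporadic 3-astral 4-configurations with arbitrarily large `m`. -/
theorem result : ∀ N : ℕ, ∃ m > N, ∃ (s t : Fin 3 → ℕ) (P : Fin 3 → Set ℂ)
    (L : Fin 3 → Set (Set ℂ)), IsAstral m s t P L ∧ IsConn P L ∧ IsSporadic m s t := by
  intro N
  obtain ⟨p, hp, hbig⟩ := exists_big N
  have hm : 0 < 30 * p := by omega
  exact ⟨30 * p, by omega, _, _, _, _, isAstral hm (data hbig), isConn hm (data hbig) rfl,
    sporadic hbig⟩

end Pool.Agent.Results.MP_abecca_co.InfinitelyManySporadic
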